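import Mathlib

/-!
# Cohen-Macaulay type of Schubert varieties: basic definitions (project CMB, MP_7fe4b4_ag)

Positions and values are `Fin (m+1)`, `0`-based.  For a permutation `v` the set of the first `a`
values is only used through the counting function `cnt v p a` (number of `i < a` with
`p ≤ v i`).
-/

set_option autoImplicit false

namespace CMB

/-! ## Permutations and Bruhat order -/

/-- The symmetric group on `m+1` letters. -/
abbrev W (m : ℕ) : Type := Equiv.Perm (Fin (m + 1))

/-- Number of positions `i < a` with `p ≤ v i`. -/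
def cnt {m : ℕ} (v : W m) (p a : ℕ) : ℕ :=
  (Finset.univ.filter (fun i : Fin (m + 1) => (i : ℕ) < a ∧ p ≤ (v i : ℕ))).card

/-- `v[a] ≤ w[a]`. -/
def leA {m : ℕ} (a : ℕ) (v w : W m) : Prop := ∀ p, cnt v p a ≤ cnt w p a

/-- `v[a] = w[a]`. -/
def eqA {m : ℕ} (a : ℕ) (v w : W m) : Prop := ∀ p, cnt v p a = cnt w p a

/-- Bruhat order. -/
def ble {m : ℕ} (v w : W m) : Prop := ∀ a, leA a v w

/-- The simple transposition of the positions `j`, `j+1`. -/
def sj {m : ℕ} (j : Fin m) : W m := Equiv.swap j.castSucc j.succ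

/-- `v s_j > v`. -/
def asc {m : ℕ} (v : W m) (j : Fin m) : Prop := v j.castSucc < v j.succ

/-- The length (number of inversions). -/
def len {m : ℕ} (v : W m) : ℕ :=
  (Finset.univ.filter (fun p : Fin (m + 1) × Fin (m + 1) => p.1 < p.2 ∧ v p.2 < v p.1)).card

/-- The longest element. -/
def w0 (m : ℕ) : W m := Fin.revPerm

/-- Lower sets of the Bruhat order. -/
def IsLow {m : ℕ} (A : Set (W m)) : Prop := ∀ u v, ble u v → v ∈ A → u ∈ A

/-- The interval `[e, v]`. -/
def Iv {m : ℕ} (v : W m) : Set (W m) := {w | ble w v}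

/-- The boundary `[e, v)`. -/
def bd {m : ℕ} (v : W m) : Set (W m) := {w | ble w v ∧ w ≠ v}

/-- The part of the boundary of `v` where the `a`-th set is smaller. -/
def bdA {m : ℕ} (a : ℕ) (v : W m) : Set (W m) := {w | ble w v ∧ ¬ eqA a w v}

/-- The saturation `A ∪ A s_j`. -/
def pls {m : ℕ} (j : Fin m) (A : Set (W m)) : Set (W m) := {w | w ∈ A ∨ w * sj j ∈ A}

/-- The elements `≤ v s_j` different from `v` and `v s_j`. -/
def opn {m : ℕ} (j : Fin m) (v : W m) : Set (W m) :=
  {w | ble w (v * sj j) ∧ w ≠ v ∧ w ≠ v * sj j}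

/-! ## Vanishing ideals -/

section Ideals

variable {k : Type} [Field k] {m : ℕ} {R : Type} [CommRing R] [Algebra k R] {Pt : Type}

/-- The ideal of the functions vanishing at the points whose type is in `A`. -/
def vI (ev : Pt → R →ₐ[k] k) (ty : Pt → W m) (A : Set (W m)) : Ideal R where
  carrier := {f | ∀ c, ty c ∈ A → ev c f = 0}
  add_mem' := by
    intro a b ha hb c hc
    rw [map_add, ha c hc, hb c hc, add_zero]
  zero_mem' := by
    intro c _
    exact map_zero _
  smul_mem' := by
    intro r a ha c hc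
    rw [smul_eq_mul, map_mul, ha c hc, mul_zero]

theorem mem_vI (ev : Pt → R →ₐ[k] k) (ty : Pt → W m) (A : Set (W m)) (f : R) :
    f ∈ vI ev ty A ↔ ∀ c, ty c ∈ A → ev c f = 0 := Iff.rfl

/-- The ideal of a point. -/
def mI (ev : Pt → R →ₐ[k] k) (o : Pt) : Ideal R := RingHom.ker (ev o)

theorem mem_mI (ev : Pt → R →ₐ[k] k) (o : Pt) (f : R) : f ∈ mI ev o ↔ ev o f = 0 := Iff.rfl

end Ideals

/-! ## Depth and type at a maximal ideal, by regular sequences -/

section DT

variable {R : Type} [CommRing R]

/-- The socle: elements killed by `I`. -/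
def soc (I : Ideal R) (M : Type) [AddCommGroup M] [Module R M] : Submodule R M where
  carrier := {x | ∀ r ∈ I, r • x = 0}
  add_mem' := by
    intro a b ha hb r hr
    rw [smul_add, ha r hr, hb r hr, add_zero]
  zero_mem' := by
    intro r _
    exact smul_zero r
  smul_mem' := by
    intro c x hx r hr
    rw [smul_comm, hx r hr, smul_zero]

/-- There is an `M`-regular sequence of length `n` in `I` such that the socle of the quotient has
length at most `t`.  For a maximal ideal `I` of a Noetherian ring and `M` finite this says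
`Ext^i(R/I, M) = 0` for `i < n` and `length Ext^n(R/I, M) ≤ t`. -/
def DT (I : Ideal R) (M : Type) [AddCommGroup M] [Module R M] (n : ℕ) (t : ℕ∞) : Prop :=
  ∃ rs : List R, rs.length = n ∧ (∀ r ∈ rs, r ∈ I) ∧
    RingTheory.Sequence.IsWeaklyRegular M rs ∧
    Module.length R (soc I (M ⧸ (Ideal.ofList rs • (⊤ : Submodule R M)))) ≤ t

end DT

end CMB
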