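import Pool.Agent.CMB.Basic

/-!
# The induction package and the geometry of one step (project CMB, MP_7fe4b4_ag)

`Pkg ev ty o pf x` is the list of properties of one chart (the chart at `x`) that is proved by
downward induction on `x`.  `Geom k m σ x j` is the geometric datum of the step from the chart at
`x s_j > x` to the chart at `x`.
-/

set_option autoImplicit false

namespace CMB

section Pkg

variable {k : Type} [Field k] {m : ℕ} {R : Type} [CommRing R] [Algebra k R] {Pt : Type}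

/-- The package of a chart: `ev` evaluates functions at points, `ty` is the type (Bruhat cell) of a
point, `o` the origin (of type `x`), `pf u a` the extremal minor `p_{u,a}`. -/
structure Pkg (ev : Pt → R →ₐ[k] k) (ty : Pt → W m) (o : Pt) (pf : W m → ℕ → R) (x : W m) :
    Prop where
  noeth : IsNoetherianRing R
  tyo : ty o = x
  ge : ∀ c, ble x (ty c)
  ex : ∀ v, ble x v → ∃ c, ty c = v
  pne : ∀ c u a, ev c (pf u a) ≠ 0 → leA a u (ty c)
  peq : ∀ c u a, eqA a u (ty c) → ev c (pf u a) ≠ 0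
  dense : ∀ v f, ble x v → (∀ c, ty c = v → ev c f = 0) → f ∈ vI ev ty (Iv v)
  prime : ∀ v, ble x v → (vI ev ty (Iv v)).IsPrime
  normal : ∀ v, ble x v → IsIntegrallyClosed (R ⧸ vI ev ty (Iv v))
  add : ∀ A B, IsLow A → IsLow B → vI ev ty (A ∩ B) ≤ vI ev ty A ⊔ vI ev ty B
  chev : ∀ v a, ble x v → 1 ≤ a → a ≤ m →
    vI ev ty (bdA a v) ≤ vI ev ty (Iv v) ⊔ Ideal.span {pf v a}
  ht : (mI ev o).height ≤ len (w0 m)
  dep : ∀ v, ble x v → DT (mI ev o) (R ⧸ vI ev ty (Iv v)) (len v) ⊤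
  typ : ∀ v, ble x v →
    DT (mI ev o) ((vI ev ty (bd v)).map (Ideal.Quotient.mk (vI ev ty (Iv v)))) (len v) 1

end Pkg

/-- Evaluation of a polynomial in `z` over the polynomial ring `k[y]` at `(y, z)`. -/
noncomputable def ev2 {k : Type} [Field k] {σ : Type} (c : (σ → k) × k) :
    Polynomial (MvPolynomial σ k) →ₐ[k] k :=
  (Polynomial.aeval c.2).comp (Polynomial.mapAlgHom (MvPolynomial.aeval c.1))

/-- The geometry of a step: `t0` and `t1` are the types of the points `(y, z)` of the charts at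
`x` and at `x s_j`; the point `(y, z)` of the chart at `x` is the point `(y, 1/z)` of the chart at
`x s_j`; `tau a` is the translation of the chart at `x s_j`. -/
structure Geom (k : Type) [Field k] (m : ℕ) (σ : Type) (x : W m) (j : Fin m) where
  t0 : (σ → k) × k → W m
  t1 : (σ → k) × k → W m
  tau : k → (σ → k) → (σ → k)
  taup : σ → Polynomial (MvPolynomial σ k)
  p0 : W m → ℕ → Polynomial (MvPolynomial σ k)
  p1 : W m → ℕ → Polynomial (MvPolynomial σ k)
  /-- the minors `p_{u,a}`, `a ≠ j+1`, and the coefficients of `p_{u,j+1} = P + z P'` -/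
  pb : W m → ℕ → MvPolynomial σ k
  pP : W m → MvPolynomial σ k
  pP' : W m → MvPolynomial σ k
  hx : asc x j
  g1 : ∀ y z, z ≠ 0 → t0 (y, z) = t1 (y, z⁻¹)
  g2 : ∀ y, ∃ w, asc w j ∧
    ((t1 (y, 0) = w ∧ ∀ z, t0 (y, z) = w * sj j) ∨
      (t1 (y, 0) = w * sj j ∧ ∃ z0, t0 (y, z0) = w ∧ ∀ z, z ≠ z0 → t0 (y, z) = w * sj j))
  g3 : ∀ y z a, t1 (tau a y, z + a) = t1 (y, z)
  g3a : ∀ a b y, tau a (tau b y) = tau (a + b) y
  g3b : ∀ y, tau 0 y = y
  g3c : ∀ a, tau a 0 = 0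
  g3d : ∀ a y i, tau a y i = ev2 (y, a) (taup i)
  g4 : ∀ c u a, ev2 c (p0 u a) ≠ 0 → leA a u (t0 c)
  g4a : ∀ c u a, eqA a u (t0 c) → ev2 c (p0 u a) ≠ 0
  g5 : ∀ c u a, ev2 c (p1 u a) ≠ 0 → leA a u (t1 c)
  g5a : ∀ c u a, eqA a u (t1 c) → ev2 c (p1 u a) ≠ 0
  g6 : ∀ u a, a ≠ (j : ℕ) + 1 → p0 u a = Polynomial.C (pb u a)
  g6a : ∀ u a, a ≠ (j : ℕ) + 1 → p1 u a = Polynomial.C (pb u a) ∨ p1 u a = -Polynomial.C (pb u a)
  g6b : ∀ u, p0 u ((j : ℕ) + 1) = Polynomial.C (pP u) + Polynomial.X * Polynomial.C (pP' u)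
  g6c : ∀ u, p1 u ((j : ℕ) + 1) = Polynomial.C (pP' u) + Polynomial.X * Polynomial.C (pP u)
  g7 : ∀ u y, asc u j → MvPolynomial.eval y (pb u j) ≠ 0 →
    MvPolynomial.eval y (pP u * pP' (u * sj j) - pP' u * pP (u * sj j)) =
      MvPolynomial.eval y (pb u j * pb u ((j : ℕ) + 2))
  g8 : t0 (0, 0) = x
  g8a : t1 (0, 0) = x * sj j
  g9 : ∀ c, ble x (t0 c)

end CMB
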